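import Pool.Agent.K7.H74.AG.Stm

/-!
# Project AG, job AE: almost all coefficient vectors (after helper87's file for project AF)
-/

set_option autoImplicit false

namespace Pool.Agent.K7.H3.AG

open MeasureTheory Finset Pool.Agent.K7.H74.AG

theorem measurable_snoc' (t : ℕ) :
    Measurable fun q : (Fin t → ℝ) × ℝ => (Fin.snoc q.1 q.2 : Fin (t + 1) → ℝ) := by
  rw [measurable_pi_iff]
  intro i
  refine Fin.lastCases ?_ (fun j => ?_) i
  · simp only [Fin.snoc_last]
    exact measurable_snd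
  · simp only [Fin.snoc_castSucc]
    exact (measurable_pi_apply j).comp measurable_fst

instance seg_sf (m : ℕ) : SigmaFinite (seg m) := by
  unfold seg
  infer_instance

theorem ae_snoc (m t : ℕ) (P : (Fin (t + 1) → ℝ) → Prop) (hP : MeasurableSet {a | P a})
    (h : ∀ᵐ a ∂(cub m t), ∀ᵐ β ∂(seg m), P (Fin.snoc a β)) :
    ∀ᵐ a ∂(cub m (t + 1)), P a := by
  have hm : MeasurableSet {q : (Fin t → ℝ) × ℝ | P (Fin.snoc q.1 q.2)} :=
    measurable_snoc' t hP
  have h1 : ∀ᵐ q ∂((cub m t).prod (seg m)), P (Fin.snoc q.1 q.2) := by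
    unfold cub at h ⊢
    exact (Measure.ae_prod_iff_ae_ae hm).2 h
  have h2 : ∀ᵐ q ∂((seg m).prod (cub m t)), P (Fin.snoc q.2 q.1) := by
    unfold cub at h1 ⊢
    exact (Measure.measurePreserving_swap
      (μ := seg m)
      (ν := Measure.pi fun _ : Fin t => seg m)).quasiMeasurePreserving.ae h1
  have h3 := (measurePreserving_piFinSuccAbove
    (fun _ : Fin (t + 1) => (seg m : Measure ℝ)) (Fin.last t))
  unfold cub at h2 ⊢
  refine (h3.quasiMeasurePreserving.ae h2).mono fun ξ hξ => ?_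
  have e : (Fin.snoc ((MeasurableEquiv.piFinSuccAbove (fun _ : Fin (t + 1) => ℝ) (Fin.last t)) ξ).2
      ((MeasurableEquiv.piFinSuccAbove (fun _ : Fin (t + 1) => ℝ) (Fin.last t)) ξ).1 :
        Fin (t + 1) → ℝ) = ξ := by
    funext i
    refine Fin.lastCases ?_ (fun j => ?_) i
    · rw [Fin.snoc_last]
      rfl
    · rw [Fin.snoc_castSucc]
      change ξ ((Fin.last t).succAbove j) = _
      rw [Fin.succAbove_last]
  rw [e] at hξ
  exact hξ

theorem ae_perm (m t : ℕ) (P : (Fin t → ℝ) → Prop) (h : ∀ᵐ a ∂(cub m t), P a) :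
    ∀ᵐ a ∂(cub m t), ∀ σ : Equiv.Perm (Fin t), P (a ∘ σ) := by
  rw [ae_all_iff]
  intro σ
  unfold cub at h ⊢
  have h1 := measurePreserving_piCongrLeft
    (fun _ : Fin t => (seg m : Measure ℝ)) σ.symm
  refine (h1.quasiMeasurePreserving.ae h).mono fun ξ hξ => ?_
  have e : (MeasurableEquiv.piCongrLeft (fun _ : Fin t => ℝ) σ.symm) ξ = ξ ∘ σ := by
    funext i
    obtain ⟨j, rfl⟩ := σ.symm.surjective i
    rw [MeasurableEquiv.piCongrLeft_apply_apply]
    simp
  rw [e] at hξ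
  exact hξ

theorem ae_mem (m t : ℕ) : ∀ᵐ a ∂(cub m t), Cf m a := by
  unfold Cf
  rw [ae_all_iff]
  intro i
  have h : ∀ᵐ x ∂(seg m), 1 / (m : ℝ) ≤ x ∧ x ≤ m :=
    ae_restrict_mem measurableSet_Icc
  unfold cub
  exact (Measure.tendsto_eval_ae_ae
    (μ := fun _ : Fin t => seg m) (i := i)).eventually h

theorem ae_exh (t : ℕ) (P : (Fin t → ℝ) → Prop) (h : ∀ m : ℕ, 1 ≤ m → ∀ᵐ a ∂(cub m t), P a) :
    ∀ᵐ a : Fin t → ℝ, (∀ i, 0 < a i) → P a := by
  have h1 : ∀ n : ℕ, ∀ᵐ a : Fin t → ℝ,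
      a ∈ Set.pi Set.univ (fun _ : Fin t => Set.Icc (1 / ((n + 1 : ℕ) : ℝ)) ((n + 1 : ℕ) : ℝ)) → P a := by
    intro n
    have h2 := h (n + 1) (by omega)
    unfold cub seg at h2
    rw [← Measure.restrict_pi_pi] at h2
    exact (ae_restrict_iff' (MeasurableSet.univ_pi fun _ => measurableSet_Icc)).1 h2
  filter_upwards [ae_all_iff.2 h1] with a ha hpos
  obtain ⟨n, hn⟩ : ∃ n : ℕ, ∀ i, 1 / a i ≤ n ∧ a i ≤ n := by
    obtain ⟨n, hn⟩ := exists_nat_ge (∑ i, (1 / a i + a i))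
    refine ⟨n, fun i => ?_⟩
    have hp : ∀ j, 0 < 1 / a j := fun j => one_div_pos.2 (hpos j)
    have h3 : 1 / a i + a i ≤ ∑ j, (1 / a j + a j) :=
      single_le_sum (f := fun j => 1 / a j + a j) (fun j _ => by have := hp j; have := hpos j; positivity)
        (mem_univ i)
    have h4 := hp i
    have h5 := hpos i
    constructor <;> linarith
  refine ha n ?_
  rw [Set.mem_univ_pi]
  intro i
  have h3 := hn i
  have h5 := hpos i
  have h4 : 0 < 1 / a i := one_div_pos.2 h5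
  constructor
  · rw [div_le_iff₀ (by positivity)]
    have h6 : 1 = a i * (1 / a i) := by field_simp
    push_cast
    have h7 : a i * (1 / a i) ≤ a i * (n : ℝ) := mul_le_mul_of_nonneg_left h3.1 h5.le
    linarith
  · push_cast
    linarith

/-- JOB AE -/
theorem stAe : StAe := ⟨ae_snoc, ae_perm, ae_mem, ae_exh⟩

end Pool.Agent.K7.H3.AG
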