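import Pool.Agent.K7.H74.AG.Stm

set_option autoImplicit false

/-! JOB MEAS of project AG (after helper79's file for project AF). -/

open MeasureTheory Finset

namespace Pool.Agent.K7.H3.AG

open Pool.Agent.K7.H74.AF (lo blk Box mx e)
open Pool.Agent.K7.H74.AG

theorem m_cn (k t : ℕ) (b : Fin t → ℕ) (η : ℝ) :
    Measurable fun p : (Fin t → ℝ) × ℝ => (cn k p.1 b η p.2 : ℝ) := by
  classical
  have e1 : (fun p : (Fin t → ℝ) × ℝ => (cn k p.1 b η p.2 : ℝ)) = fun p =>
      ∑ x ∈ Box b, if |∑ i, p.1 i * (x i : ℝ) ^ k - p.2| ≤ η then (1 : ℝ) else 0 := by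
    funext p
    unfold cn
    rw [Finset.card_filter]
    push_cast
    refine sum_congr rfl fun x _ => ?_
    congr!
  rw [e1]
  refine Finset.measurable_sum _ fun x _ => ?_
  refine Measurable.ite ?_ measurable_const measurable_const
  refine measurableSet_le ?_ measurable_const
  fun_prop

theorem s_vl (k t : ℕ) (b : Fin t → ℕ) (η : ℝ) :
    MeasurableSet {p : ((Fin t → ℝ) × ℝ) × (Fin t → ℝ) | (∀ i, (lo (b i) : ℝ) ≤ p.2 i ∧ p.2 i < 3 ^ b i) ∧
      |∑ i, p.1.1 i * p.2 i ^ k - p.1.2| ≤ η} := by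
  have e1 : {p : ((Fin t → ℝ) × ℝ) × (Fin t → ℝ) | (∀ i, (lo (b i) : ℝ) ≤ p.2 i ∧ p.2 i < 3 ^ b i) ∧
      |∑ i, p.1.1 i * p.2 i ^ k - p.1.2| ≤ η} =
      (⋂ i, ({p : ((Fin t → ℝ) × ℝ) × (Fin t → ℝ) | (lo (b i) : ℝ) ≤ p.2 i} ∩
        {p : ((Fin t → ℝ) × ℝ) × (Fin t → ℝ) | p.2 i < 3 ^ b i})) ∩
        {p : ((Fin t → ℝ) × ℝ) × (Fin t → ℝ) | |∑ i, p.1.1 i * p.2 i ^ k - p.1.2| ≤ η} := by
    ext p
    simp
  rw [e1]
  have m1 : ∀ i : Fin t, Measurable fun p : ((Fin t → ℝ) × ℝ) × (Fin t → ℝ) => p.2 i := fun i =>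
    (measurable_pi_apply i).comp measurable_snd
  have m2 : ∀ i : Fin t, Measurable fun p : ((Fin t → ℝ) × ℝ) × (Fin t → ℝ) => p.1.1 i := fun i =>
    (measurable_pi_apply i).comp (measurable_fst.comp measurable_fst)
  refine (MeasurableSet.iInter fun i => ?_).inter ?_
  · exact (measurableSet_le measurable_const (m1 i)).inter (measurableSet_lt (m1 i) measurable_const)
  · refine measurableSet_le ?_ measurable_const
    exact ((Finset.measurable_sum _ fun i _ => (m2 i).mul ((m1 i).pow_const k)).sub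
      (measurable_snd.comp measurable_fst)).abs

theorem m_vl (k t : ℕ) (b : Fin t → ℕ) (η : ℝ) :
    Measurable fun p : (Fin t → ℝ) × ℝ => vl k p.1 b η p.2 := by
  have h := measurable_measure_prodMk_left (ν := (volume : Measure (Fin t → ℝ))) (s_vl k t b η)
  exact h.ennreal_toReal

theorem s_lv (k t : ℕ) (b : Fin t → ℕ) (l : ℕ) :
    MeasurableSet {p : (Fin t → ℝ) × ℝ | (2 : ℝ) ^ l ≤ cn k p.1 b 1 p.2} :=
  measurableSet_le measurable_const (m_cn k t b 1)

theorem s_ex (k t : ℕ) (b : Fin t → ℕ) (η : ℝ) (l : ℕ) :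
    MeasurableSet {p : (Fin t → ℝ) × ℝ | vl k p.1 b η p.2 + (2 : ℝ) ^ l ≤ cn k p.1 b η p.2} :=
  measurableSet_le ((m_vl k t b η).add measurable_const) (m_cn k t b η)

theorem s_df (k t : ℕ) (b : Fin t → ℕ) (η : ℝ) (l : ℕ) :
    MeasurableSet {p : (Fin t → ℝ) × ℝ | (cn k p.1 b η p.2 : ℝ) + (2 : ℝ) ^ l ≤ vl k p.1 b η p.2} :=
  measurableSet_le ((m_cn k t b η).add measurable_const) (m_vl k t b η)

/-- JOB MEAS -/
theorem stMeas : StMeas := by
  refine ⟨m_cn, m_vl, ?_, ?_, ?_, ?_, ?_, ?_⟩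
  · intro k t a b l
    exact measurable_prodMk_left (x := a) (s_lv k t b l)
  · intro k t a b η l
    exact measurable_prodMk_left (x := a) (s_ex k t b η l)
  · intro k t a b η l
    exact measurable_prodMk_left (x := a) (s_df k t b η l)
  · intro k t b l c
    exact measurableSet_le
      (measurable_measure_prodMk_left (ν := (volume : Measure ℝ)) (s_lv k t b l)) measurable_const
  · intro k t b η l c
    exact measurableSet_le
      (measurable_measure_prodMk_left (ν := (volume : Measure ℝ)) (s_ex k t b η l)) measurable_const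
  · intro k t b η l c
    exact measurableSet_le
      (measurable_measure_prodMk_left (ν := (volume : Measure ℝ)) (s_df k t b η l)) measurable_const

end Pool.Agent.K7.H3.AG
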